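import Pool.Agent.H66.FSplit2

set_option autoImplicit false

namespace Pool.Agent.Results.MP_234613_al.Domain

open Pool.Agent.H66.FSplit

universe u

theorem result (p : ℕ) [Fact p.Prime] :
    ∃ (R : Type) (_ : CommRing R) (_ : CharP R p), IsNoetherianRing R ∧ IsDomain R ∧
      IsLocalRing R ∧ ringKrullDim R = 1 ∧
      (∀ (M : Type u) [AddCommGroup M] [Module R M],
        Function.Injective fun m : M => m ⊗ₜ[R] Frob.one p R) ∧
      (∃ φ : Frob p R →ₗ[R] R, φ ≠ 0) ∧
      ¬ ∃ φ : Frob p R →ₗ[R] R, φ (Frob.one p R) = 1 := by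
  obtain ⟨k, _, _, ⟨D⟩⟩ := exists_data p
  exact ⟨D.R, inferInstance, inferInstance, D.noeth, inferInstance, D.loc, D.dim,
    fun M _ _ => D.pure M, D.nonzero, D.not_split⟩

end Pool.Agent.Results.MP_234613_al.Domain
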